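import Pool.Agent.RDO.Stmts

/-!
# Row DSC of squad RDO: the theorem for unit discs (helper92)

The rows NCM, ANG, CPA, CNF, RTA, LAT are hypotheses.
-/

set_option autoImplicit false

open MeasureTheory Module Submodule
open scoped ENNReal Pointwise

namespace Pool.Agent.RDO.H92

open Pool.Agent.RDO

private theorem num (A N Z I cap : ℝ) (hA : 0 ≤ A) (hN : 0 ≤ N)
    (h1 : A ≤ N * (√3 / 2 * (59 / 15) ^ 2) + Z) (h2 : 2 * Real.pi * Z ≤ 3 * (2 * I))
    (h3 : Real.pi * I ≤ A * (2 * Real.pi * cap))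
    (h4 : cap ≤ 4 * √2 / 3 * ((1 - 29 / 30) * √(1 - 29 / 30))) :
    917 / 1000 * A ≤ 4 * Real.pi * N := by
  have hpi : (3.141592 : ℝ) < Real.pi := Real.pi_gt_d6
  have hpi0 : 0 < Real.pi := Real.pi_pos
  have hs3 : √3 ≤ 1.7320509 := by
    rw [Real.sqrt_le_left (by norm_num)]
    norm_num
  have hs15 : (3.8729833 : ℝ) ≤ √15 := by
    apply Real.le_sqrt_of_sq_le
    norm_num
  have hs15p : 0 < √15 := by positivity
  have hcap : 4 * √2 / 3 * ((1 - 29 / 30) * √(1 - 29 / 30 : ℝ)) = 2 / (45 * √15) := by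
    have e1 : (1 - 29 / 30 : ℝ) = 1 / 30 := by norm_num
    have e2 : √(1 / 30 : ℝ) = √2 / (2 * √15) := by
      rw [show (1 / 30 : ℝ) = 2 / (4 * 15) by norm_num, Real.sqrt_div (by norm_num),
        Real.sqrt_mul (by norm_num)]
      congr 2
      rw [show (4 : ℝ) = 2 ^ 2 by norm_num]
      exact Real.sqrt_sq (by norm_num)
    rw [e1, e2]
    have e3 : √2 * √2 = 2 := Real.mul_self_sqrt (by norm_num)
    have : 4 * √2 / 3 * (1 / 30 * (√2 / (2 * √15))) = (√2 * √2) / (45 * √15) := by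
      field_simp
      ring
    rw [this, e3]
  rw [hcap] at h4
  obtain ⟨δ, hδ⟩ : ∃ δ : ℝ, δ = 4 / (15 * √15) := ⟨_, rfl⟩
  have hδ' : δ ≤ 0.068854 := by
    rw [hδ, div_le_iff₀ (by positivity)]
    nlinarith
  -- the bound of the conflicts
  have h5 : I ≤ A * (2 * cap) := by
    have : Real.pi * I ≤ Real.pi * (A * (2 * cap)) := by
      calc Real.pi * I ≤ A * (2 * Real.pi * cap) := h3
        _ = _ := by ring
    exact le_of_mul_le_mul_left this hpi0
  have h6 : Real.pi * Z ≤ A * δ := by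
    have h7 : A * (2 * cap) ≤ A * (2 * (2 / (45 * √15))) := by gcongr
    have h8 : 3 * (2 / (45 * √15)) * 2 = δ := by
      rw [hδ]
      field_simp
      norm_num
    nlinarith
  have h7 : A * (Real.pi - δ) ≤ N * Real.pi * (√3 / 2 * (59 / 15) ^ 2) := by
    have h8 := mul_le_mul_of_nonneg_left h1 hpi0.le
    nlinarith
  have h8 : 917 / 1000 * (√3 / 2 * (59 / 15) ^ 2) ≤ 4 * (Real.pi - δ) := by
    nlinarith
  have h9 : 0 < Real.pi - δ := by linarith
  have h10 : 917 / 1000 * A * (Real.pi - δ) ≤ 4 * Real.pi * N * (Real.pi - δ) := by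
    have h11 := mul_le_mul_of_nonneg_left h8 (mul_nonneg hN hpi0.le)
    nlinarith
  exact le_of_mul_le_mul_right h10 h9

theorem dsc (hNCM : NcmStmt) (hANG : AngStmt) (hCPA : CpaStmt) (hCNF : CnfStmt) (hRTA : RtaStmt)
    (hLAT : LatStmt) : DscStmt := by
  intro n c
  classical
  rcases n with _ | n
  · refine ⟨∅, fun i hi => absurd hi (Finset.notMem_empty i), ?_⟩
    have h0 : Un c = ∅ := by
      unfold Un
      exact Set.iUnion_of_empty _
    rw [h0, measure_empty]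
    simp
  obtain ⟨k, hk⟩ := hNCM n c
  obtain ⟨θ, hθ⟩ := hRTA (n + 1) c k hk (59 / 15)
  have hs3 : (1.732 : ℝ) ≤ √3 := by
    apply Real.le_sqrt_of_sq_le
    norm_num
  obtain ⟨X, hX, hvol⟩ := hLAT (n + 1) c k hk (59 / 15) θ (by linarith)
  have hinj : Set.InjOn k (X : Set P2) := by
    intro x hx y hy hxy
    by_contra hne
    have h1 := hX x hx y hy hne
    rw [hxy, dist_self] at h1
    linarith
  refine ⟨X.image k, ?_, ?_⟩
  · intro i hi j hj hij
    obtain ⟨x, hx, rfl⟩ := Finset.mem_image.1 hi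
    obtain ⟨y, hy, rfl⟩ := Finset.mem_image.1 hj
    exact hX x hx y hy fun h => hij (by rw [h])
  rw [Finset.card_image_of_injOn hinj]
  -- finiteness
  have hfin : volume (Un c) ≠ ∞ := by
    unfold Un
    refine ne_of_lt (lt_of_le_of_lt (measure_iUnion_le _) ?_)
    rw [tsum_fintype]
    exact ENNReal.sum_lt_top.2 fun i _ => measure_closedBall_lt_top
  have hZfin : ∀ w : P2, volume (Zc c k w) ≠ ∞ := fun w =>
    ne_of_lt (lt_of_le_of_lt (measure_mono fun z hz => hz.1) (lt_top_iff_ne_top.2 hfin))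
  have hcnf := hCNF (n + 1) c k hk (59 / 15)
  rw [show ((59 / 15 : ℝ) - 2) / 2 = 29 / 30 by norm_num] at hcnf
  have hang := hANG (n + 1) c k hk (29 / 30) (by norm_num)
  have hcpa := hCPA (29 / 30) (by norm_num) (by norm_num)
  obtain ⟨I, hI⟩ : ∃ I : ℝ≥0∞, I = ∫⁻ θ in Set.Ioc 0 (2 * Real.pi), volume (Aw c k (29 / 30) θ) :=
    ⟨_, rfl⟩
  obtain ⟨J, hJ⟩ : ∃ J : ℝ≥0∞, J = ∫⁻ φ in Set.Ioc 0 (2 * Real.pi),
    volume (Zc c k ((59 / 15 : ℝ) • ev φ)) := ⟨_, rfl⟩
  obtain ⟨Z, hZ⟩ : ∃ Z : ℝ≥0∞, Z = volume (Zc c k ((59 / 15 : ℝ) • ev θ)) +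
      volume (Zc c k ((59 / 15 : ℝ) • ev (θ + Real.pi / 3))) +
        volume (Zc c k ((59 / 15 : ℝ) • ev (θ + 2 * Real.pi / 3))) := ⟨_, rfl⟩
  rw [← hI, ← hJ] at hcnf
  rw [← hI] at hang
  rw [← hZ, ← hJ] at hθ
  rw [← hZ] at hvol
  have hZt : Z ≠ ∞ := by
    rw [hZ]
    exact ENNReal.add_ne_top.2 ⟨ENNReal.add_ne_top.2 ⟨hZfin _, hZfin _⟩, hZfin _⟩
  have hcapt : volume (Cap (29 / 30)) ≠ ∞ := ne_of_lt (lt_of_le_of_lt hcpa ENNReal.ofReal_lt_top)
  have hpi0 : 0 < Real.pi := Real.pi_pos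
  have hIt : I ≠ ∞ := by
    intro h
    rw [h, ENNReal.mul_top (by simpa using hpi0)] at hang
    have h1 : volume (Un c) * (ENNReal.ofReal (2 * Real.pi) * volume (Cap (29 / 30))) ≠ ∞ :=
      ENNReal.mul_ne_top hfin (ENNReal.mul_ne_top ENNReal.ofReal_ne_top hcapt)
    exact h1 (top_le_iff.1 hang)
  have h2I : 2 * I ≠ ∞ := ENNReal.mul_ne_top (by norm_num) hIt
  have hJt : J ≠ ∞ := ne_of_lt (lt_of_le_of_lt hcnf (lt_top_iff_ne_top.2 h2I))
  -- the real inequalities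
  have r1 : (volume (Un c)).toReal ≤
      (X.card : ℝ) * (√3 / 2 * (59 / 15) ^ 2) + Z.toReal := by
    have h1 : (X.card : ℝ≥0∞) * ENNReal.ofReal (√3 / 2 * (59 / 15) ^ 2) ≠ ∞ :=
      ENNReal.mul_ne_top (ENNReal.natCast_ne_top _) ENNReal.ofReal_ne_top
    have h2 := ENNReal.toReal_mono (ENNReal.add_ne_top.2 ⟨h1, hZt⟩) hvol
    rw [ENNReal.toReal_add h1 hZt, ENNReal.toReal_mul, ENNReal.toReal_natCast,
      ENNReal.toReal_ofReal (by positivity)] at h2
    exact h2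
  have r2 : 2 * Real.pi * Z.toReal ≤ 3 * (2 * I.toReal) := by
    have h1 : J.toReal ≤ 2 * I.toReal := by
      have h2 := ENNReal.toReal_mono h2I hcnf
      rw [ENNReal.toReal_mul] at h2
      simpa using h2
    have h3 : 2 * Real.pi * Z.toReal ≤ 3 * J.toReal := by
      have h2 := ENNReal.toReal_mono (ENNReal.mul_ne_top (by norm_num) hJt) hθ
      rw [ENNReal.toReal_mul, ENNReal.toReal_mul, ENNReal.toReal_ofReal (by positivity)] at h2
      simpa using h2
    linarith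
  have r3 : Real.pi * I.toReal ≤
      (volume (Un c)).toReal * (2 * Real.pi * (volume (Cap (29 / 30))).toReal) := by
    have h2 := ENNReal.toReal_mono
      (ENNReal.mul_ne_top hfin (ENNReal.mul_ne_top ENNReal.ofReal_ne_top hcapt)) hang
    rw [ENNReal.toReal_mul, ENNReal.toReal_mul, ENNReal.toReal_mul,
      ENNReal.toReal_ofReal (by positivity), ENNReal.toReal_ofReal (by positivity)] at h2
    exact h2
  have r4 : (volume (Cap (29 / 30))).toReal ≤
      4 * √2 / 3 * ((1 - 29 / 30) * √(1 - 29 / 30)) := by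
    have h2 := ENNReal.toReal_mono ENNReal.ofReal_ne_top hcpa
    rw [ENNReal.toReal_ofReal] at h2
    · exact h2
    · have : (0 : ℝ) ≤ 1 - 29 / 30 := by norm_num
      positivity
  exact num _ _ _ _ _ ENNReal.toReal_nonneg (Nat.cast_nonneg _) r1 r2 r3 r4

end Pool.Agent.RDO.H92
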